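import Mathlib
import Pool.Agent.Lib.MP_062a1c_lc.Internal
import Pool.Agent.Lib.MP_062a1c_lc.Assembly
import Pool.Agent.Lib.MP_062a1c_lc.Hit

/-!
Q1, full negative answer: there is a model of `ZFC` in which `hia < min(d, non(M))`.

The notions `IsOmegaIn`, `IsIntAlgIn`, … are the usual first-order notions, read inside the model
`(M, ∈)`; they are defined in `Pool.Agent.Lib.MP_062a1c_lc.Internal` and
`Pool.Agent.Lib.MP_a1c723_lc.BV.Internal`. A field of subsets of `ω` is a `σ`-centered Boolean
algebra, and a Boolean algebra is an interval algebra if and only if it is generated by a chain.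
-/

namespace Pool.Agent.Results.MP_062a1c_lc.HiaBelowMin

open Pool.Agent.StarRoth.BV Pool.Agent.Hia

/-- It is consistent with `ZFC` that `hia < min(d, non(M))`: there is a model `(M, ∈)` of `ZFC`
with elements `w = ω`, `S` and `A` such that in `M`: `S` is an interval algebra of subsets of `ω`,
`A` is a subalgebra of `S` that is not an interval algebra, and every set of functions from `ω` to
`ω` of cardinality at most `|S|` is meager and not dominating. -/
theorem result :
    ∃ (M : Type) (_ : Membership M M), ModelZFC M ∧ ∃ w S A : M,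
      IsOmegaIn w ∧ IsIntAlgIn S w ∧ IsFieldIn A w ∧ SubIn A S ∧ ¬ IsIntAlgIn A w ∧
      (∀ F : M, IsRealsIn F w ∧ CardLeIn F S → ¬ IsDomIn F w) ∧
      ∀ F : M, IsRealsIn F w ∧ CardLeIn F S → IsMeagerIn F w :=
  consistency hitStmt

end Pool.Agent.Results.MP_062a1c_lc.HiaBelowMin
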