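import Pool.Agent.Lib.MP_062a1c_lc.Zfc.Card
import Pool.Agent.Lib.MP_062a1c_lc.Zfc.Null

/-!
# MP_062a1c_lc: `hia ≤ max(b, e_2) ≤ max(b, non(N))` in ZFC

All definitions (`IntAlg`, `IsIntervalAlgebra`, `Hereditary`, `SigmaCentered`, `hia`, `bNum`,
`dNum`, `nonM`, `nonN`, `Predicted`, `eTwo`) are in `Pool/Agent/Lib/MP_062a1c_lc/Zfc/Defs.lean`.
-/

namespace Pool.Agent.Results.MP_062a1c_lc.HiaLeMaxBNonN

open Pool.Agent.Lib.MP_062a1c_lc.Zfc

/-- (ZFC) `hia ≤ max(b, e_2)` and `e_2 ≤ non(N)`; hence `hia ≤ max(b, non(N))`, and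
`hia < min(d, non(M))` whenever `max(b, non(N)) < min(d, non(M))`. -/
theorem result :
    hia ≤ max bNum eTwo ∧ eTwo ≤ nonN ∧ hia ≤ max bNum nonN ∧
      (max bNum nonN < min dNum nonM → hia < min dNum nonM) := by
  have h1 : hia ≤ max bNum eTwo := hia_le_max exists_not_predicted
  have h2 : eTwo ≤ nonN := eTwo_le_nonN
  have h3 : hia ≤ max bNum nonN := h1.trans (max_le_max_left _ h2)
  exact ⟨h1, h2, h3, fun h => lt_of_le_of_lt h3 h⟩

end Pool.Agent.Results.MP_062a1c_lc.HiaLeMaxBNonN
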